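import Pool.Agent.Helper70.EH.Goals4

/-!
# Project EH (MP_20ee5e_ag), packet US: only the coordinates in a set
-/

set_option autoImplicit false

open MeasureTheory Set

namespace Pool.Agent.Helper48.EH.US

open Pool.Agent.Helper70.KN

/-- the pointwise inequality -/
theorem pw {N : ℕ} (S : Finset (Fin N)) (b : Fin N → Prop) [DecidablePred b] :
    (if ∀ j ∈ S, ¬ b j then (1 : ℝ) else 0) ≤ 1 - ∑ i ∈ S, (if b i then (1 : ℝ) else 0) +
      ∑ P ∈ S.powersetCard 2, (if ∀ j ∈ P, b j then (1 : ℝ) else 0) := by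
  classical
  have h1 : ∑ i ∈ S, (if b i then (1 : ℝ) else 0) = ((S.filter b).card : ℝ) := by
    rw [Finset.card_filter]
    push_cast
    rfl
  have h2 : ∑ P ∈ S.powersetCard 2, (if ∀ j ∈ P, b j then (1 : ℝ) else 0) =
      (((S.filter b).powersetCard 2).card : ℝ) := by
    have h3 : (S.filter b).powersetCard 2 = (S.powersetCard 2).filter fun P => ∀ j ∈ P, b j := by
      ext P
      simp only [Finset.mem_powersetCard, Finset.mem_filter, Finset.subset_iff]
      constructor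
      · rintro ⟨h, hc⟩
        exact ⟨⟨fun j hj => (h hj).1, hc⟩, fun j hj => (h hj).2⟩
      · rintro ⟨⟨h, hc⟩, h'⟩
        exact ⟨fun j hj => ⟨h hj, h' j hj⟩, hc⟩
    rw [h3, Finset.card_filter]
    push_cast
    rfl
  rw [h1, h2, Finset.card_powersetCard, Nat.cast_choose_two]
  split_ifs with h
  · have h4 : S.filter b = ∅ := Finset.filter_eq_empty_iff.2 fun {j} hj => h j hj
    rw [h4]
    norm_num
  · have h5 : 1 ≤ (S.filter b).card := by
      rw [Finset.one_le_card]
      push Not at h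
      obtain ⟨j, hj, hb⟩ := h
      exact ⟨j, Finset.mem_filter.2 ⟨hj, hb⟩⟩
    obtain ⟨m, hm⟩ := Nat.exists_eq_add_of_le h5
    rw [hm]
    push_cast
    rcases m with _ | m
    · norm_num
    · push_cast
      have : (0 : ℝ) ≤ m := Nat.cast_nonneg m
      nlinarith [mul_nonneg this this]

/-- the integrated form of the pointwise inequality -/
theorem key {N : ℕ} (S : Finset (Fin N)) (h : ℝ) (μ : Measure (Fin N → ℝ)) [IsFiniteMeasure μ] :
    μ.real {x : Fin N → ℝ | ∀ j ∈ S, ¬ x j < h} ≤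
      μ.real univ - ∑ i ∈ S, μ.real {x : Fin N → ℝ | ∀ j ∈ ({i} : Finset (Fin N)), x j < h} +
        ∑ J ∈ S.powersetCard 2, μ.real {x : Fin N → ℝ | ∀ j ∈ J, x j < h} := by
  classical
  have hlt : ∀ j : Fin N, MeasurableSet {x : Fin N → ℝ | x j < h} := fun j =>
    measurableSet_lt (measurable_pi_apply j) measurable_const
  have hD : ∀ J : Finset (Fin N), MeasurableSet {x : Fin N → ℝ | ∀ j ∈ J, x j < h} := by
    intro J
    have : {x : Fin N → ℝ | ∀ j ∈ J, x j < h} = ⋂ j ∈ J, {x : Fin N → ℝ | x j < h} := by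
      ext x; simp
    rw [this]
    exact Finset.measurableSet_biInter J fun j _ => hlt j
  have hB : MeasurableSet {x : Fin N → ℝ | ∀ j ∈ S, ¬ x j < h} := by
    have : {x : Fin N → ℝ | ∀ j ∈ S, ¬ x j < h} = ⋂ j ∈ S, {x : Fin N → ℝ | x j < h}ᶜ := by
      ext x; simp
    rw [this]
    exact Finset.measurableSet_biInter _ fun j _ => (hlt j).compl
  have hint : ∀ S : Set (Fin N → ℝ), MeasurableSet S →
      Integrable (S.indicator (fun _ => (1 : ℝ))) μ := fun S hS => (integrable_const 1).indicator hS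
  have hval : ∀ S : Set (Fin N → ℝ), MeasurableSet S →
      ∫ x, S.indicator (fun _ => (1 : ℝ)) x ∂μ = μ.real S := by
    intro S hS
    rw [integral_indicator_const (1 : ℝ) hS]
    simp
  have h1 : μ.real {x : Fin N → ℝ | ∀ j ∈ S, ¬ x j < h} =
      ∫ x, ({x : Fin N → ℝ | ∀ j ∈ S, ¬ x j < h}).indicator (fun _ => (1 : ℝ)) x ∂μ :=
    (hval _ hB).symm
  have h2 : ∑ i ∈ S, μ.real {x : Fin N → ℝ | ∀ j ∈ ({i} : Finset (Fin N)), x j < h} =
      ∫ x, ∑ i ∈ S, ({x : Fin N → ℝ | ∀ j ∈ ({i} : Finset (Fin N)), x j < h}).indicator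
        (fun _ => (1 : ℝ)) x ∂μ := by
    rw [integral_finsetSum _ (fun i _ => hint _ (hD {i}))]
    exact Finset.sum_congr rfl fun i _ => (hval _ (hD {i})).symm
  have h3 : ∑ J ∈ S.powersetCard 2, μ.real {x : Fin N → ℝ | ∀ j ∈ J, x j < h} =
      ∫ x, ∑ J ∈ S.powersetCard 2,
        ({x : Fin N → ℝ | ∀ j ∈ J, x j < h}).indicator (fun _ => (1 : ℝ)) x ∂μ := by
    rw [integral_finsetSum _ (fun J _ => hint _ (hD J))]
    exact Finset.sum_congr rfl fun J _ => (hval _ (hD J)).symm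
  have i2 : Integrable (fun x => ∑ i ∈ S,
      ({x : Fin N → ℝ | ∀ j ∈ ({i} : Finset (Fin N)), x j < h}).indicator (fun _ => (1 : ℝ)) x) μ :=
    integrable_finsetSum _ fun i _ => hint _ (hD {i})
  have i3 : Integrable (fun x => ∑ J ∈ S.powersetCard 2,
      ({x : Fin N → ℝ | ∀ j ∈ J, x j < h}).indicator (fun _ => (1 : ℝ)) x) μ :=
    integrable_finsetSum _ fun J _ => hint _ (hD J)
  rw [h1, h2, h3]
  have h4 : μ.real univ = ∫ _x, (1 : ℝ) ∂μ := by
    rw [integral_const, smul_eq_mul, mul_one]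
  have h6 : ∀ F2 F3 : (Fin N → ℝ) → ℝ, Integrable F2 μ → Integrable F3 μ →
      ∫ _x, (1 : ℝ) ∂μ - ∫ x, F2 x ∂μ + ∫ x, F3 x ∂μ = ∫ x, (1 - F2 x + F3 x) ∂μ := by
    intro F2 F3 j2 j3
    have e1 : Integrable (fun x => (1 : ℝ) - F2 x) μ := (integrable_const _).sub j2
    rw [integral_add e1 j3, integral_sub (integrable_const _) j2]
  rw [h4, h6 _ _ i2 i3]
  refine integral_mono (hint _ hB) ?_ ?_
  · exact ((integrable_const _).sub i2).add i3
  · intro x
    have h5 := pw S (fun j => x j < h)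
    simpa [Set.indicator_apply] using h5

/-- **US.** -/
theorem t (hJE : S_JE) (hMF : S_MF) : Pool.Agent.Helper70.EH.G_US := by
  classical
  intro N V hV S hS
  obtain ⟨i, hi⟩ : ∃ i, i ∉ S := by
    by_contra hc
    push Not at hc
    exact hS (Finset.eq_univ_iff_forall.2 hc)
  have hcyl : cyl V ∅ = {x : Fin N → ℝ | 0 ≤ x ∧ x ∉ newton V} := by
    ext x
    have hz : zr (∅ : Finset (Fin N)) x = x := by
      funext i; simp [zr]
    simp [cyl, hz]
  obtain ⟨hm, hf, -⟩ := hMF N V hV ∅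
  have hW : W V ∅ = (volume {x : Fin N → ℝ | 0 ≤ x ∧ x ∉ newton V}).toReal := by
    unfold W; rw [hcyl]
  rw [hcyl] at hm hf
  set U : Set (Fin N → ℝ) := {x : Fin N → ℝ | 0 ≤ x ∧ x ∉ newton V} with hU
  have : IsFiniteMeasure (volume.restrict U) :=
    ⟨by rw [Measure.restrict_apply_univ]; exact lt_top_iff_ne_top.2 hf⟩
  have hk := key S (1 / 2) (volume.restrict U)
  have hr : ∀ S : Set (Fin N → ℝ), (volume.restrict U).real S = (volume (S ∩ U)).toReal := by
    intro S
    rw [Measure.real, Measure.restrict_apply' hm]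
  have hY : ∀ J : Finset (Fin N), Y V (1 / 2) J =
      (volume.restrict U).real {x : Fin N → ℝ | ∀ j ∈ J, x j < 1 / 2} := by
    intro J
    rw [hr]
    unfold Y
    congr 2
    ext x
    simp only [part, hU, mem_ofPred_eq, mem_inter_iff]
    tauto
  have hG : (genus V : ℝ) ≤
      (volume.restrict U).real {x : Fin N → ℝ | ∀ j ∈ S, ¬ x j < 1 / 2} := by
    rw [hr]
    refine (hJE N V hV i).trans (ENNReal.toReal_mono ?_ (measure_mono ?_))
    · exact ((measure_mono inter_subset_right).trans_lt (lt_top_iff_ne_top.2 hf)).ne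
    · rintro x ⟨hx1, hx2, hx3⟩
      exact ⟨fun j hj => not_lt.2 (hx3 j fun hji => hi (hji ▸ hj)), hx1, hx2⟩
  have hW' : W V ∅ = (volume.restrict U).real univ := by
    rw [hr, univ_inter, hW]
  simp only [hY, hW']
  exact hG.trans hk

end Pool.Agent.Helper48.EH.US
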